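import Pool.Agent.helper85.Path.Final
import Pool.Agent.helper85.Path.Topo
import Pool.Agent.helper21.PathReduction

/-!
# MP_b001a4_an: paths of superpolynomial growth for meromorphic functions with few poles

Full positive answer to Q1, in a stronger form: on the path `log |f(z)| ≥ |z| ^ κ`, for any `κ < 1/2`
given in advance, and `f` is holomorphic at all its points.

`T(r, f)` is Mathlib's `ValueDistribution.characteristic f ⊤ r`, the sum of the proximity function and
of the integrated counting function of the poles.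
-/

set_option autoImplicit false

open Filter Topology ValueDistribution

namespace Pool.Agent.Results.MP_b001a4_an.ExponentialPaths

/-- The order of the pole of `f` at `z` (`0` if `z` is not a pole). -/
noncomputable def poleOrder (f : ℂ → ℂ) (z : ℂ) : ℕ := (-(meromorphicOrderAt f z).untop₀).toNat

/-- `n(r, f)`: the number of poles of `f` in `|z| < r`, counted with multiplicity. -/
noncomputable def poleCount (f : ℂ → ℂ) (r : ℝ) : ℕ := ∑ᶠ z ∈ Metric.ball (0 : ℂ) r, poleOrder f z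

/-- The lower order of `f`: `liminf log T(r, f) / log r` for `r → ∞`, in `[-∞, ∞]`. -/
noncomputable def lowerOrder (f : ℂ → ℂ) : EReal :=
  liminf (fun r : ℝ => ((Real.log (characteristic f ⊤ r) / Real.log r : ℝ) : EReal)) atTop

/-- A path to infinity: a continuous curve `z(t)`, `0 ≤ t < ∞`, with `|z(t)| → ∞`. -/
def IsPathToInfinity (γ : ℝ → ℂ) : Prop :=
  ContinuousOn γ (Set.Ici 0) ∧ Tendsto (fun t => ‖γ t‖) atTop atTop

/-- `|f(z) / z ^ n| → ∞` along the path, for every `n`. -/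
def SuperpolynomialAlong (f : ℂ → ℂ) (γ : ℝ → ℂ) : Prop :=
  ∀ n : ℕ, Tendsto (fun t => ‖f (γ t) / γ t ^ n‖) atTop atTop

theorem finite_poles {f : ℂ → ℂ} (hf : ∀ z, MeromorphicAt f z) (r : ℝ) :
    (Metric.ball (0 : ℂ) r ∩ Function.support (poleOrder f)).Finite := by
  have hf' : MeromorphicOn f Set.univ := fun z _ => hf z
  have h3 := (Function.locallyFinsupp.locallyFiniteSupport
    (MeromorphicOn.divisor f (Set.univ : Set ℂ))).finite_inter_support_of_isCompact
    (isCompact_closedBall (0 : ℂ) r)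
  refine h3.subset fun z hz => ⟨Metric.ball_subset_closedBall hz.1, ?_⟩
  intro h0
  have h0' : (MeromorphicOn.divisor f Set.univ) z = 0 := h0
  rw [MeromorphicOn.divisor_apply hf' (Set.mem_univ z)] at h0'
  apply hz.2
  simp only [poleOrder]
  rw [h0']
  simp

theorem poleCount_eq {f : ℂ → ℂ} (hf : ∀ z, MeromorphicAt f z) (r : ℝ) :
    (∑ᶠ (z : ℂ) (_ : z ∈ Metric.ball (0 : ℂ) r),
      (((-(MeromorphicOn.divisor f Set.univ z)) ⊔ 0 : ℤ) : ℝ)) = (poleCount f r : ℝ) := by
  have hf' : MeromorphicOn f Set.univ := fun z _ => hf z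
  have h1 : ∀ z, (((-(MeromorphicOn.divisor f Set.univ z)) ⊔ 0 : ℤ) : ℝ) = ((poleOrder f z : ℕ) : ℝ) := by
    intro z
    have h : ((poleOrder f z : ℕ) : ℤ) = (-(MeromorphicOn.divisor f Set.univ z)) ⊔ 0 := by
      rw [MeromorphicOn.divisor_apply hf' (Set.mem_univ z), poleOrder, Int.toNat_eq_max]
    rw [← h]
    simp
  simp only [h1, poleCount]
  have h2 : (Metric.ball (0 : ℂ) r ∩ Function.support fun z => (poleOrder f z : ℝ)).Finite := by
    refine (finite_poles hf r).subset fun z hz => ⟨hz.1, ?_⟩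
    have := hz.2
    rw [Function.mem_support] at this ⊢
    exact_mod_cast this
  rw [finsum_mem_eq_sum _ h2, finsum_mem_eq_sum _ (finite_poles hf r)]
  push_cast
  refine Finset.sum_congr ?_ fun _ _ => rfl
  ext z
  simp

theorem poleCount_mono {f : ℂ → ℂ} (hf : ∀ z, MeromorphicAt f z) {r s : ℝ} (h : r ≤ s) :
    poleCount f r ≤ poleCount f s := by
  unfold poleCount
  rw [finsum_mem_eq_sum _ (finite_poles hf r), finsum_mem_eq_sum _ (finite_poles hf s)]
  refine Finset.sum_le_sum_of_subset ?_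
  intro z hz
  rw [Set.Finite.mem_toFinset] at hz ⊢
  exact ⟨Metric.ball_subset_ball h hz.1, hz.2⟩

theorem bound_of_isBigO {f : ℂ → ℂ} (hf : ∀ z, MeromorphicAt f z) {k : ℝ}
    (hn : (fun r : ℝ => (poleCount f r : ℝ)) =O[atTop] fun r : ℝ => r ^ k) :
    ∃ C : ℝ, ∀ r : ℝ, 1 ≤ r → (poleCount f r : ℝ) ≤ C * r ^ k := by
  obtain ⟨c, hc⟩ := hn.bound
  obtain ⟨R, hR⟩ := eventually_atTop.mp hc
  set R' := max R 1 with hR'
  have hR1 : 1 ≤ R' := le_max_right _ _
  refine ⟨|c| + poleCount f R' / min 1 (R' ^ k), fun r hr => ?_⟩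
  have hr0 : 0 < r := by linarith
  have hm : 0 < min 1 (R' ^ k) := lt_min one_pos (Real.rpow_pos_of_pos (by linarith) _)
  have hrk : 0 < r ^ k := Real.rpow_pos_of_pos hr0 _
  rcases le_total R' r with h | h
  · have h1 := hR r ((le_max_left _ _).trans h)
    rw [Real.norm_of_nonneg (Nat.cast_nonneg _), Real.norm_of_nonneg hrk.le] at h1
    calc (poleCount f r : ℝ) ≤ c * r ^ k := h1
      _ ≤ (|c| + poleCount f R' / min 1 (R' ^ k)) * r ^ k := by
        apply mul_le_mul_of_nonneg_right _ hrk.le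
        have : 0 ≤ poleCount f R' / min 1 (R' ^ k) := by positivity
        linarith [le_abs_self c]
  · have h1 : (poleCount f r : ℝ) ≤ poleCount f R' := by exact_mod_cast poleCount_mono hf h
    have h2 : min 1 (R' ^ k) ≤ r ^ k := by
      rcases le_total 0 k with hk | hk
      · exact (min_le_left _ _).trans (Real.one_le_rpow hr hk)
      · exact (min_le_right _ _).trans (Real.rpow_le_rpow_of_nonpos hr0 h hk)
    calc (poleCount f r : ℝ) ≤ poleCount f R' := h1
      _ = poleCount f R' / min 1 (R' ^ k) * min 1 (R' ^ k) := by field_simp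
      _ ≤ poleCount f R' / min 1 (R' ^ k) * r ^ k := mul_le_mul_of_nonneg_left h2 (by positivity)
      _ ≤ (|c| + poleCount f R' / min 1 (R' ^ k)) * r ^ k := by
        apply mul_le_mul_of_nonneg_right _ hrk.le
        linarith [abs_nonneg c]

theorem bound_of_lowerOrder {f : ℂ → ℂ} (hl : (((1 / 2 : ℝ)) : EReal) < lowerOrder f) :
    ∃ μ : ℝ, 1 / 2 < μ ∧ ∀ᶠ r in atTop, r ^ μ ≤ characteristic f ⊤ r := by
  obtain ⟨μ, h1, h2⟩ := EReal.exists_between_coe_real hl
  refine ⟨μ, by exact_mod_cast h1, ?_⟩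
  filter_upwards [eventually_lt_of_lt_liminf h2, eventually_gt_atTop 1] with r hr hr1
  have hr' : μ < Real.log (characteristic f ⊤ r) / Real.log r := by exact_mod_cast hr
  have hlog : 0 < Real.log r := Real.log_pos hr1
  have hμ : (1 / 2 : ℝ) < μ := by exact_mod_cast h1
  rw [lt_div_iff₀ hlog] at hr'
  have hT0 : 0 ≤ characteristic f ⊤ r := characteristic_nonneg hr1.le
  have hT : 0 < characteristic f ⊤ r := by
    rcases hT0.eq_or_lt with h | h
    · rw [← h, Real.log_zero] at hr'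
      nlinarith
    · exact h
  rw [Real.rpow_def_of_pos (by linarith), ← Real.le_log_iff_exp_le hT, mul_comm]
  exact hr'.le

/-- **Full answer to Q1 (yes).** Let `f` be meromorphic in the plane, `n(r, f) = O(r ^ k)` with
`k < 1/2`, of lower order `> 1/2`. Then for every `κ < 1/2` there is a path to infinity at all of
whose points `f` is holomorphic and `|f(z)| ≥ exp(|z| ^ κ)`; along it `|f(z) / z ^ n| → ∞` for
every `n`, so `f` has property (P). -/
theorem result (f : ℂ → ℂ) (hf : ∀ z, MeromorphicAt f z) (k : ℝ) (hk : k < 1 / 2)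
    (hn : (fun r : ℝ => (poleCount f r : ℝ)) =O[atTop] fun r : ℝ => r ^ k)
    (hl : (((1 / 2 : ℝ)) : EReal) < lowerOrder f) (κ : ℝ) (hκ : κ < 1 / 2) :
    ∃ γ : ℝ → ℂ, IsPathToInfinity γ ∧ SuperpolynomialAlong f γ ∧
      ∀ t : ℝ, 0 ≤ t → AnalyticAt ℂ f (γ t) ∧ Real.exp (‖γ t‖ ^ κ) ≤ ‖f (γ t)‖ := by
  have hf' : MeromorphicOn f Set.univ := fun z _ => hf z
  obtain ⟨C₀, hC₀⟩ := bound_of_isBigO hf hn
  obtain ⟨F, S, s, C, ν, hF, hS, hs0, hs, hν, hle, hbig⟩ :=
    Pool.Agent.helper21.Path.reduction f hf' ⟨k, hk, C₀, fun r hr => by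
      rw [poleCount_eq hf]; exact hC₀ r hr⟩ (bound_of_lowerOrder hl)
  set κ₁ : ℝ := (max s κ + 1 / 2) / 2 with hκ₁
  have hmax : max s κ < 1 / 2 := max_lt hs hκ
  have hκ₁2 : κ₁ < 1 / 2 := by rw [hκ₁]; linarith
  have hsκ₁ : s < κ₁ := by rw [hκ₁]; linarith [le_max_left s κ]
  have hκκ₁ : κ < κ₁ := by rw [hκ₁]; linarith [le_max_right s κ]
  have hA : {z : ℂ | AnalyticAt ℂ f z} ∈ codiscrete ℂ := hf'.analyticAt_mem_codiscreteWithin
  have hS' : (S ∪ {z : ℂ | AnalyticAt ℂ f z}ᶜ).Countable :=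
    hS.union (Pool.Agent.helper21.Path.codiscrete_compl_countable hA)
  obtain ⟨γ, h1, h2, h3⟩ := Pool.Agent.helper85.Path.main_path
    Pool.Agent.helper85.Path.joinedIn_diff_countable Pool.Agent.helper85.Path.concat hF
    (hs0.trans hsκ₁) hκ₁2 hν hbig hS'
  have h4 : ∀ t : ℝ, 0 ≤ t → AnalyticAt ℂ f (γ t) ∧
      Real.exp (‖γ t‖ ^ κ₁ - C * (1 + ‖γ t‖) ^ s) ≤ ‖f (γ t)‖ := by
    intro t ht
    obtain ⟨h5, h6⟩ := h3 t ht
    rw [Set.mem_union, not_or] at h5
    refine ⟨not_not.mp h5.2, ?_⟩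
    rw [Real.exp_sub, div_le_iff₀ (Real.exp_pos _)]
    exact h6.trans (hle _ h5.1)
  -- the growth
  have h5 : ∀ᶠ x : ℝ in atTop, x ^ κ ≤ x ^ κ₁ - C * (1 + x) ^ s := by
    have e1 := (tendsto_rpow_atTop (by linarith : 0 < κ₁ - s)).eventually_ge_atTop
      (2 * (|C| * 2 ^ s))
    have e2 := (tendsto_rpow_atTop (by linarith : 0 < κ₁ - κ)).eventually_ge_atTop 2
    filter_upwards [e1, e2, eventually_ge_atTop 1] with x hx1 hx2 hx
    have hx0 : 0 < x := by linarith
    have a1 : C * (1 + x) ^ s ≤ 1 / 2 * x ^ κ₁ := by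
      calc C * (1 + x) ^ s ≤ |C| * (1 + x) ^ s := by gcongr; exact le_abs_self C
        _ ≤ |C| * (2 * x) ^ s := by gcongr; linarith
        _ = 1 / 2 * ((2 * (|C| * 2 ^ s)) * x ^ s) := by
          rw [Real.mul_rpow (by norm_num) hx0.le]; ring
        _ ≤ 1 / 2 * (x ^ (κ₁ - s) * x ^ s) := by gcongr
        _ = 1 / 2 * x ^ κ₁ := by rw [← Real.rpow_add hx0]; congr 2; ring
    have a2 : 2 * x ^ κ ≤ x ^ κ₁ := by
      calc 2 * x ^ κ ≤ x ^ (κ₁ - κ) * x ^ κ := by gcongr
        _ = x ^ κ₁ := by rw [← Real.rpow_add hx0]; congr 1; ring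
    linarith
  obtain ⟨T, hT⟩ := eventually_atTop.mp (h2.eventually h5)
  refine ⟨fun t => γ (t + max T 0), ⟨(h1.comp (by fun_prop)).continuousOn,
    h2.comp (tendsto_atTop_add_const_right _ _ tendsto_id)⟩, fun n => ?_, fun t ht => ?_⟩
  · have h6 : Tendsto (fun t => ‖f (γ t) / γ t ^ n‖) atTop atTop := by
      refine tendsto_atTop_mono' _ ?_
        ((Pool.Agent.helper85.Path.growth (C := C) hs0 hsκ₁ n).comp h2)
      filter_upwards [eventually_ge_atTop 0] with t ht
      rw [norm_div, norm_pow]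
      show Real.exp (‖γ t‖ ^ κ₁ - C * (1 + ‖γ t‖) ^ s) / ‖γ t‖ ^ n ≤ _
      have := (h4 t ht).2
      gcongr
    exact h6.comp (tendsto_atTop_add_const_right _ _ tendsto_id)
  · have ht' : 0 ≤ t + max T 0 := by have := le_max_right T 0; linarith
    have hT' : T ≤ t + max T 0 := by have := le_max_left T 0; linarith
    exact ⟨(h4 _ ht').1, (Real.exp_le_exp.mpr (hT _ hT')).trans (h4 _ ht').2⟩

end Pool.Agent.Results.MP_b001a4_an.ExponentialPaths
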